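import Pool.Agent.H75.Box.Defs

/-!
# Attractors of homogeneous diagonal affine iterated function systems
-/

open Filter Topology Set

namespace Pool.Agent.H75.Box

variable {d : ℕ} {D : Type}

/-- Coding map of the iterated function system `x ↦ diag(c) x + f t`, `t ∈ D`. -/
noncomputable def code (c : Fin d → ℝ) (f : D → Fin d → ℝ) (ω : ℕ → D) :
    EuclideanSpace ℝ (Fin d) :=
  WithLp.toLp 2 (fun i => ∑' k, f (ω k) i * c i ^ k)

theorem code_apply (c : Fin d → ℝ) (f : D → Fin d → ℝ) (ω : ℕ → D) (i : Fin d) :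
    code c f ω i = ∑' k, f (ω k) i * c i ^ k := rfl

variable {c : Fin d → ℝ} {f : D → Fin d → ℝ}

theorem exists_bound [Finite D] (f : D → Fin d → ℝ) : ∃ M : ℝ, 0 ≤ M ∧ ∀ t i, |f t i| ≤ M := by
  have h : Finite (D × Fin d) := inferInstance
  obtain ⟨M, hM⟩ := (Set.finite_range (fun p : D × Fin d => |f p.1 p.2|)).bddAbove
  refine ⟨max M 0, le_max_right _ _, fun t i => ?_⟩
  exact (hM ⟨(t, i), rfl⟩).trans (le_max_left _ _)

theorem summable_digits {c : ℝ} (hc0 : 0 ≤ c) (hc1 : c < 1) {M : ℝ} {a : ℕ → ℝ}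
    (ha : ∀ k, |a k| ≤ M) : Summable (fun k => a k * c ^ k) := by
  refine Summable.of_norm_bounded (g := fun k => M * c ^ k)
    ((summable_geometric_of_lt_one hc0 hc1).mul_left M) (fun k => ?_)
  rw [norm_mul, norm_pow, Real.norm_eq_abs, Real.norm_eq_abs, abs_of_nonneg hc0]
  exact mul_le_mul_of_nonneg_right (ha k) (pow_nonneg hc0 k)

theorem continuous_code [Finite D] [TopologicalSpace D] [DiscreteTopology D]
    (hc0 : ∀ i, 0 ≤ c i) (hc1 : ∀ i, c i < 1) : Continuous (code c f) := by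
  obtain ⟨M, hM0, hM⟩ := exists_bound f
  have h : Continuous (fun ω : ℕ → D => fun i => ∑' k, f (ω k) i * c i ^ k) := by
    refine continuous_pi fun i => ?_
    refine continuous_tsum (u := fun k => M * c i ^ k) (fun k => ?_)
      ((summable_geometric_of_lt_one (hc0 i) (hc1 i)).mul_left M) (fun k ω => ?_)
    · have : Continuous (fun t : D => f t i) := continuous_of_discreteTopology
      exact (this.comp (continuous_apply k)).mul continuous_const
    · rw [norm_mul, norm_pow, Real.norm_eq_abs, Real.norm_eq_abs, abs_of_nonneg (hc0 i)]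
      exact mul_le_mul_of_nonneg_right (hM _ _) (pow_nonneg (hc0 i) k)
  exact (PiLp.continuous_toLp 2 _).comp h

theorem isCompact_range_code [Finite D] (hc0 : ∀ i, 0 ≤ c i) (hc1 : ∀ i, c i < 1) :
    IsCompact (range (code c f)) := by
  let _ : TopologicalSpace D := ⊥
  have : DiscreteTopology D := ⟨rfl⟩
  exact isCompact_range (continuous_code hc0 hc1)

theorem code_cons [Finite D] (hc0 : ∀ i, 0 ≤ c i) (hc1 : ∀ i, c i < 1) (ω : ℕ → D) :
    code c f ω = Matrix.toEuclideanCLM (𝕜 := ℝ) (Matrix.diagonal c)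
      (code c f (fun k => ω (k + 1))) + WithLp.toLp 2 (f (ω 0)) := by
  obtain ⟨M, hM0, hM⟩ := exists_bound f
  ext i
  have hs : Summable (fun k => f (ω k) i * c i ^ k) :=
    summable_digits (hc0 i) (hc1 i) (fun k => hM _ _)
  rw [PiLp.add_apply, Matrix.ofLp_toEuclideanCLM, Matrix.mulVec_diagonal, code_apply,
    hs.tsum_eq_zero_add, code_apply, ← tsum_mul_left]
  simp only [pow_zero, mul_one]
  rw [add_comm]
  congr 1
  refine tsum_congr fun k => ?_
  ring

theorem range_code_eq [Finite D] (hc0 : ∀ i, 0 ≤ c i) (hc1 : ∀ i, c i < 1) :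
    range (code c f) = ⋃ t : D, (fun x => Matrix.toEuclideanCLM (𝕜 := ℝ) (Matrix.diagonal c) x +
      WithLp.toLp 2 (f t)) '' range (code c f) := by
  apply Set.Subset.antisymm
  · rintro _ ⟨ω, rfl⟩
    refine Set.mem_iUnion.2 ⟨ω 0, code c f (fun k => ω (k + 1)), ⟨_, rfl⟩, ?_⟩
    exact (code_cons hc0 hc1 ω).symm
  · intro x hx
    obtain ⟨t, _, ⟨ω, rfl⟩, rfl⟩ := Set.mem_iUnion.1 hx
    refine ⟨fun k => Nat.casesOn k t ω, ?_⟩
    rw [code_cons hc0 hc1]
    rfl

theorem norm_diag_lt {a : ℝ} (ha0 : 0 ≤ a) (ha : a < 1) (hc : ∀ i, |c i| ≤ a) :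
    ‖Matrix.toEuclideanCLM (𝕜 := ℝ) (Matrix.diagonal c)‖ < 1 := by
  open scoped Matrix.Norms.L2Operator in
  rw [Matrix.l2_opNorm_toEuclideanCLM, Matrix.l2_opNorm_diagonal]
  refine lt_of_le_of_lt ?_ ha
  exact (pi_norm_le_iff_of_nonneg ha0).2 (fun i => by simpa using hc i)

/-- The attractor of a homogeneous diagonal system is a self-affine set. -/
theorem isSelfAffine_code [Fintype D] (hD : 2 ≤ Fintype.card D) {a : ℝ} (ha : a < 1)
    (hc0 : ∀ i, 0 < c i) (hc1 : ∀ i, c i ≤ a) (ha0 : 0 ≤ a) :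
    IsSelfAffine d (range (code c f)) := by
  have hc0' : ∀ i, 0 ≤ c i := fun i => (hc0 i).le
  have hc1' : ∀ i, c i < 1 := fun i => (hc1 i).trans_lt ha
  have : Nonempty D := Fintype.card_pos_iff.1 (by omega)
  refine ⟨Set.range_nonempty _, isCompact_range_code hc0' hc1', Fintype.card D,
    fun _ => Matrix.diagonal c, fun i => WithLp.toLp 2 (f ((Fintype.equivFin D).symm i)), hD,
    fun _ => ?_, fun _ => ?_, ?_⟩
  · rw [Matrix.isUnit_diagonal, Pi.isUnit_iff]
    exact fun i => (hc0 i).ne'.isUnit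
  · exact (opNormLtOne_iff _).2
      (norm_diag_lt ha0 ha (fun i => by rw [abs_of_pos (hc0 i)]; exact hc1 i))
  · conv_lhs => rw [range_code_eq hc0' hc1']
    exact ((Fintype.equivFin D).symm.surjective.iUnion_comp
      (fun t : D => (fun x => Matrix.toEuclideanCLM (𝕜 := ℝ) (Matrix.diagonal c) x +
      WithLp.toLp 2 (f t)) '' range (code c f))).symm

theorem dist_le_of_coord {x y : EuclideanSpace ℝ (Fin d)} {η : ℝ} (hη : 0 ≤ η)
    (h : ∀ i, |x i - y i| ≤ η) : dist x y ≤ d * η := by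
  rw [EuclideanSpace.dist_eq]
  have h1 : ∑ i, dist (x i) (y i) ^ 2 ≤ (d * η) ^ 2 := by
    calc ∑ i, dist (x i) (y i) ^ 2 ≤ ∑ _i : Fin d, η ^ 2 := by
          refine Finset.sum_le_sum fun i _ => ?_
          rw [Real.dist_eq, sq_abs]
          exact sq_le_sq' (abs_le.1 (h i)).1 (abs_le.1 (h i)).2
      _ = d * η ^ 2 := by simp
      _ ≤ (d * η) ^ 2 := by
          rw [mul_pow]
          refine mul_le_mul_of_nonneg_right ?_ (sq_nonneg _)
          rcases Nat.eq_zero_or_pos d with hd | hd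
          · subst hd; simp
          · have : (1 : ℝ) ≤ d := by exact_mod_cast hd
            nlinarith
  calc √(∑ i, dist (x i) (y i) ^ 2) ≤ √((d * η) ^ 2) := Real.sqrt_le_sqrt h1
    _ = d * η := Real.sqrt_sq (by positivity)

theorem coord_le_dist (x y : EuclideanSpace ℝ (Fin d)) (i : Fin d) : |x i - y i| ≤ dist x y := by
  rw [EuclideanSpace.dist_eq, ← Real.sqrt_sq_eq_abs]
  apply Real.sqrt_le_sqrt
  have := Finset.single_le_sum (f := fun i => dist (x i) (y i) ^ 2) (fun j _ => sq_nonneg _)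
    (Finset.mem_univ i)
  simpa [Real.dist_eq] using this

end Pool.Agent.H75.Box
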