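import Pool.Agent.H75.Box.Dims

/-!
# Box dimensions and self-affine sets: counting lemmas
-/

open Filter Topology Set

namespace Pool.Agent.H75.Box

/-- `OpNormLtOne` says what it should: Mathlib's operator norm is less than one. -/
theorem opNormLtOne_iff {d : ℕ} (A : Matrix (Fin d) (Fin d) ℝ) :
    OpNormLtOne A ↔ ‖Matrix.toEuclideanCLM (𝕜 := ℝ) A‖ < 1 := by
  constructor
  · rintro ⟨c, hc, h⟩
    refine lt_of_le_of_lt (ContinuousLinearMap.opNorm_le_bound _ (le_max_right c 0) fun x => ?_)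
      (max_lt hc one_pos)
    refine (h x).trans (mul_le_mul_of_nonneg_right (le_max_left _ _) (norm_nonneg _))
  · intro h
    exact ⟨_, h, fun x => (Matrix.toEuclideanCLM (𝕜 := ℝ) A).le_opNorm x⟩

section cover

variable {X : Type} [PseudoMetricSpace X]

theorem coverNum_le_of_cover {E : Set X} {δ : ℝ} {ι : Type} [Fintype ι] (U : ι → Set X)
    (hU : ∀ i, ∀ x ∈ U i, ∀ y ∈ U i, dist x y ≤ δ) (hE : E ⊆ ⋃ i, U i) :
    coverNum E δ ≤ Fintype.card ι := by
  apply Nat.sInf_le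
  refine ⟨fun i => U ((Fintype.equivFin ι).symm i), fun i => hU _, ?_⟩
  intro x hx
  obtain ⟨i, hi⟩ := Set.mem_iUnion.1 (hE hx)
  exact Set.mem_iUnion.2 ⟨Fintype.equivFin ι i, by simpa using hi⟩

/-- Upper bound by the number of labels. -/
theorem coverNum_le_of_label {Ω L : Type} [Fintype L] (Φ : Ω → X) (lab : Ω → L) {δ : ℝ}
    (h : ∀ a b, lab a = lab b → dist (Φ a) (Φ b) ≤ δ) :
    coverNum (range Φ) δ ≤ Fintype.card L := by
  apply coverNum_le_of_cover (fun l => Φ '' {a | lab a = l})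
  · rintro l _ ⟨a, ha, rfl⟩ _ ⟨b, hb, rfl⟩
    exact h a b (ha.trans hb.symm)
  · rintro _ ⟨a, rfl⟩
    exact Set.mem_iUnion.2 ⟨lab a, a, rfl, rfl⟩

theorem exists_cover {E : Set X} (hE : IsCompact E) {δ : ℝ} (hδ : 0 < δ) :
    {n : ℕ | ∃ U : Fin n → Set X,
      (∀ i, ∀ x ∈ U i, ∀ y ∈ U i, dist x y ≤ δ) ∧ E ⊆ ⋃ i, U i}.Nonempty := by
  obtain ⟨t, -, ht, hc⟩ := hE.finite_cover_balls (half_pos hδ)
  have := ht.fintype
  refine ⟨Fintype.card t, fun i => Metric.ball (((Fintype.equivFin t).symm i : t) : X) (δ / 2),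
    ?_, ?_⟩
  · intro i x hx y hy
    have h1 := Metric.mem_ball.1 hx
    have h2 := Metric.mem_ball'.1 hy
    have := dist_triangle x (((Fintype.equivFin t).symm i : t) : X) y
    linarith
  · intro x hx
    obtain ⟨y, hy, hxy⟩ := Set.mem_iUnion₂.1 (hc hx)
    exact Set.mem_iUnion.2 ⟨Fintype.equivFin t ⟨y, hy⟩, by simpa using hxy⟩

/-- Lower bound by the number of points of a separated family. -/
theorem le_coverNum_of_separated {E : Set X} (hE : IsCompact E) {δ : ℝ} (hδ : 0 < δ)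
    {P : Type} [Fintype P] (p : P → X) (hp : ∀ i, p i ∈ E)
    (hsep : ∀ i j, i ≠ j → δ < dist (p i) (p j)) :
    Fintype.card P ≤ coverNum E δ := by
  obtain ⟨U, hU, hEU⟩ := Nat.sInf_mem (exists_cover hE hδ)
  have hf : ∀ i, ∃ k, p i ∈ U k := fun i => Set.mem_iUnion.1 (hEU (hp i))
  choose f hf using hf
  have hinj : Function.Injective f := by
    intro i j hij
    by_contra hne
    have h1 := hsep i j hne
    have h2 := hU (f i) (p i) (hf i) (p j) (by rw [hij]; exact hf j)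
    linarith
  have := Fintype.card_le_of_injective f hinj
  simpa [coverNum] using this

end cover

section dims

variable {X : Type} [PseudoMetricSpace X]

theorem lowerBoxDim_le {E : Set X} {δ : ℕ → ℝ} (hδ0 : ∀ j, 0 < δ j)
    (hδ : Tendsto δ atTop (𝓝 0)) {g : ℕ → ℝ} {s : ℝ} (hg : Tendsto g atTop (𝓝 s))
    (h : ∀ᶠ j in atTop, Real.log (coverNum E (δ j)) / (-Real.log (δ j)) ≤ g j) :
    lowerBoxDim E ≤ (s : EReal) := by
  have ht : Tendsto δ atTop (𝓝[>] (0 : ℝ)) :=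
    tendsto_nhdsWithin_iff.2 ⟨hδ, Eventually.of_forall hδ0⟩
  have h1 : lowerBoxDim E ≤ liminf (fun j => ((Real.log (coverNum E (δ j)) /
      (-Real.log (δ j)) : ℝ) : EReal)) atTop := by
    have := liminf_le_liminf_of_le (u := fun δ : ℝ =>
      ((Real.log (coverNum E δ) / (-Real.log δ) : ℝ) : EReal)) ht
    exact this
  have h2 : Tendsto (fun j => ((g j : ℝ) : EReal)) atTop (𝓝 (s : EReal)) :=
    (continuous_coe_real_ereal.tendsto s).comp hg
  refine h1.trans ?_
  rw [← h2.liminf_eq]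
  exact liminf_le_liminf (h.mono fun j hj => EReal.coe_le_coe_iff.2 hj)

theorem le_upperBoxDim {E : Set X} {δ : ℕ → ℝ} (hδ0 : ∀ j, 0 < δ j)
    (hδ : Tendsto δ atTop (𝓝 0)) {g : ℕ → ℝ} {s : ℝ} (hg : Tendsto g atTop (𝓝 s))
    (h : ∀ᶠ j in atTop, g j ≤ Real.log (coverNum E (δ j)) / (-Real.log (δ j))) :
    (s : EReal) ≤ upperBoxDim E := by
  have ht : Tendsto δ atTop (𝓝[>] (0 : ℝ)) :=
    tendsto_nhdsWithin_iff.2 ⟨hδ, Eventually.of_forall hδ0⟩
  have h1 : limsup (fun j => ((Real.log (coverNum E (δ j)) /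
      (-Real.log (δ j)) : ℝ) : EReal)) atTop ≤ upperBoxDim E := by
    have := limsup_le_limsup_of_le (u := fun δ : ℝ =>
      ((Real.log (coverNum E δ) / (-Real.log δ) : ℝ) : EReal)) ht
    exact this
  have h2 : Tendsto (fun j => ((g j : ℝ) : EReal)) atTop (𝓝 (s : EReal)) :=
    (continuous_coe_real_ereal.tendsto s).comp hg
  refine le_trans ?_ h1
  rw [← h2.limsup_eq]
  exact limsup_le_limsup (h.mono fun j hj => EReal.coe_le_coe_iff.2 hj)

end dims

end Pool.Agent.H75.Box
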