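import Mathlib

/-!
# Box dimensions and self-affine sets: definitions
-/

open Filter Topology Set

namespace Pool.Agent.H75.Box

/-- `coverNum E δ` is the least number of sets of diameter at most `δ` needed to cover `E`. -/
noncomputable def coverNum {X : Type} [PseudoMetricSpace X] (E : Set X) (δ : ℝ) : ℕ :=
  sInf {n : ℕ | ∃ U : Fin n → Set X,
    (∀ i, ∀ x ∈ U i, ∀ y ∈ U i, dist x y ≤ δ) ∧ E ⊆ ⋃ i, U i}

/-- Lower box dimension: the lower limit of `log N_δ(E) / (- log δ)` as `δ → 0+`. -/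
noncomputable def lowerBoxDim {X : Type} [PseudoMetricSpace X] (E : Set X) : EReal :=
  liminf (fun δ : ℝ => ((Real.log (coverNum E δ) / (-Real.log δ) : ℝ) : EReal)) (𝓝[>] (0 : ℝ))

/-- Upper box dimension: the upper limit of `log N_δ(E) / (- log δ)` as `δ → 0+`. -/
noncomputable def upperBoxDim {X : Type} [PseudoMetricSpace X] (E : Set X) : EReal :=
  limsup (fun δ : ℝ => ((Real.log (coverNum E δ) / (-Real.log δ) : ℝ) : EReal)) (𝓝[>] (0 : ℝ))

/-- The vector `A x` of `ℝ^d`, for a `d × d` matrix `A` and `x ∈ ℝ^d`. -/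
noncomputable def act {d : ℕ} (A : Matrix (Fin d) (Fin d) ℝ) (x : EuclideanSpace ℝ (Fin d)) :
    EuclideanSpace ℝ (Fin d) := WithLp.toLp 2 (A.mulVec x.ofLp)

/-- The Euclidean operator norm of `A` is less than `1`: `‖A x‖ ≤ c ‖x‖` for all `x ∈ ℝ^d`, with
some `c < 1`. -/
def OpNormLtOne {d : ℕ} (A : Matrix (Fin d) (Fin d) ℝ) : Prop :=
  ∃ c : ℝ, c < 1 ∧ ∀ x : EuclideanSpace ℝ (Fin d), ‖act A x‖ ≤ c * ‖x‖

/-- `E ⊆ ℝ^d` is a self-affine set: it is the nonempty compact set with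
`E = ⋃ i, f i (E)` for finitely many (at least two) maps `f i x = A i x + t i`, where every
`A i` is an invertible `d × d` matrix of Euclidean operator norm less than `1`. -/
def IsSelfAffine (d : ℕ) (E : Set (EuclideanSpace ℝ (Fin d))) : Prop :=
  E.Nonempty ∧ IsCompact E ∧
    ∃ (m : ℕ) (A : Fin m → Matrix (Fin d) (Fin d) ℝ) (t : Fin m → EuclideanSpace ℝ (Fin d)),
      2 ≤ m ∧ (∀ i, IsUnit (A i)) ∧ (∀ i, OpNormLtOne (A i)) ∧
      E = ⋃ i, (fun x => act (A i) x + t i) '' E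

end Pool.Agent.H75.Box
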