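import Pool.Agent.H75.Box.System

/-!
# Lower bound for the covering numbers at thick scales
-/

open Filter Topology Set

namespace Pool.Agent.H75.Box

/-- extension of a finite word by a fixed letter -/
def ext {N : ℕ} {A : Type} (z : A) (g : Fin N → A) : ℕ → A := fun k => if h : k < N then g ⟨k, h⟩ else z

theorem ext_lt {N : ℕ} {A : Type} (z : A) (g : Fin N → A) (k : Fin N) : ext z g k = g k := by
  simp [ext]

theorem ext_ge {N : ℕ} {A : Type} (z : A) (g : Fin N → A) {k : ℕ} (h : N ≤ k) : ext z g k = z := by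
  simp [ext, Nat.not_lt.2 h]

theorem ext_inj {N : ℕ} {A : Type} (z : A) {g g' : Fin N → A}
    (h : ∀ k < N, ext z g k = ext z g' k) : g = g' := by
  funext k
  have := h k k.2
  rwa [ext_lt, ext_lt] at this

theorem hv_tail {B : ℕ} {a : ℕ → ℕ} {l n : ℕ} (hl : l ≤ n) (h : ∀ k, l ≤ k → a k = 0) :
    hv B a n = B ^ (n - l) * hv B a l := by
  obtain ⟨m, rfl⟩ := Nat.exists_eq_add_of_le hl
  rw [hv_zero_tail h, Nat.add_sub_cancel_left]

/-- parameters of the separated family -/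
abbrev Par (n l : ℕ) : Type :=
  (Fin n → Fin 255) × (Fin n → Fin 4) × (Fin l → Fin 4) × (Fin n → Fin 16) ×
    (Fin (n + n) → Fin 4)

/-- the digit sequence belonging to a parameter -/
def word {n l : ℕ} (P : Par n l) (k : ℕ) : Dig :=
  if k < n then Sum.inl (ext 0 P.2.1 k, ext 0 P.2.2.1 k, ext 0 P.1 k)
  else if k < n + n then Sum.inr (ext 0 P.2.2.2.1 (k - n))
  else if k < (n + n) + (n + n) then Sum.inl (ext 0 P.2.2.2.2 (k - (n + n)), 0, 0)
  else Sum.inr 0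

variable {n l : ℕ} (P : Par n l)

theorem word_1 {k : ℕ} (h : k < n) :
    word P k = Sum.inl (ext 0 P.2.1 k, ext 0 P.2.2.1 k, ext 0 P.1 k) := by
  simp [word, h]

theorem word_2 {k : ℕ} (h : k < n) : word P (n + k) = Sum.inr (ext 0 P.2.2.2.1 k) := by
  simp [word, h]

theorem word_3 {k : ℕ} (h : k < n + n) :
    word P (n + n + k) = Sum.inl (ext 0 P.2.2.2.2 k, 0, 0) := by
  have h1 : ¬ (n + n + k < n) := by omega
  simp [word, h1, h]

theorem word_4 {k : ℕ} (h : (n + n) + (n + n) ≤ k) : word P k = Sum.inr 0 := by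
  have h1 : ¬ (k < n) := by omega
  have h2 : ¬ (k < n + n) := by omega
  have h3 : ¬ (k < (n + n) + (n + n)) := by omega
  simp [word, h1, h2, h3]

theorem series_eq (a : Dig → ℝ) (ha : a (Sum.inr 0) = 0) (q : ℝ) :
    ∑' k, a (word P k) * q ^ k =
      (∑ k ∈ Finset.range n, a (Sum.inl (ext 0 P.2.1 k, ext 0 P.2.2.1 k, ext 0 P.1 k)) * q ^ k +
       ∑ k ∈ Finset.range n, a (Sum.inr (ext 0 P.2.2.2.1 k)) * q ^ (n + k)) +
       ∑ k ∈ Finset.range (n + n), a (Sum.inl (ext 0 P.2.2.2.2 k, 0, 0)) * q ^ (n + n + k) := by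
  rw [tsum_eq_sum (s := Finset.range ((n + n) + (n + n))), Finset.sum_range_add,
    Finset.sum_range_add]
  · congr 1
    · congr 1
      · refine Finset.sum_congr rfl fun k hk => ?_
        rw [word_1 P (Finset.mem_range.1 hk)]
      · refine Finset.sum_congr rfl fun k hk => ?_
        rw [word_2 P (Finset.mem_range.1 hk)]
    · refine Finset.sum_congr rfl fun k hk => ?_
      rw [word_3 P (Finset.mem_range.1 hk)]
  · intro k hk
    rw [word_4 P (by simpa using hk), ha, zero_mul]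

/-- integer value of the first digits of the first coordinate -/
def dh : ℕ := hv 4 (fun k => (ext 0 P.2.1 k : Fin 4)) n
/-- integer value of the `e`-digits -/
def eh : ℕ := hv 4 (fun k => (ext 0 P.2.2.1 k : Fin 4)) l
/-- integer value of the second coordinate digits -/
def zh : ℕ := hv 16 (fun k => (ext 0 P.2.2.2.1 k : Fin 16)) n
/-- integer value of the late digits of the first coordinate -/
def wh : ℕ := hv 4 (fun k => (ext 0 P.2.2.2.2 k : Fin 4)) (n + n)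
/-- integer value of the third coordinate digits -/
def yh : ℕ := hv 256 (fun k => (ext 0 P.1 k : Fin 255) + 1) n

theorem par_ext {P Q : Par n l} (h1 : dh P = dh Q) (h2 : eh P = eh Q) (h3 : zh P = zh Q)
    (h4 : wh P = wh Q) (h5 : yh P = yh Q) : P = Q := by
  have k1 := hv_inj (fun k _ => (ext 0 P.2.1 k : Fin 4).2) (fun k _ => (ext 0 Q.2.1 k : Fin 4).2) h1
  have k2 := hv_inj (fun k _ => (ext 0 P.2.2.1 k : Fin 4).2)
    (fun k _ => (ext 0 Q.2.2.1 k : Fin 4).2) h2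
  have k3 := hv_inj (fun k _ => (ext 0 P.2.2.2.1 k : Fin 16).2)
    (fun k _ => (ext 0 Q.2.2.2.1 k : Fin 16).2) h3
  have k4 := hv_inj (fun k _ => (ext 0 P.2.2.2.2 k : Fin 4).2)
    (fun k _ => (ext 0 Q.2.2.2.2 k : Fin 4).2) h4
  have k5 := hv_inj (fun k _ => by have := (ext 0 P.1 k : Fin 255).2; omega)
    (fun k _ => by have := (ext 0 Q.1 k : Fin 255).2; omega) h5
  have e1 : P.2.1 = Q.2.1 := ext_inj 0 fun k hk => Fin.ext (k1 k hk)
  have e2 : P.2.2.1 = Q.2.2.1 := ext_inj 0 fun k hk => Fin.ext (k2 k hk)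
  have e3 : P.2.2.2.1 = Q.2.2.2.1 := ext_inj 0 fun k hk => Fin.ext (k3 k hk)
  have e4 : P.2.2.2.2 = Q.2.2.2.2 := ext_inj 0 fun k hk => Fin.ext (k4 k hk)
  have e5 : P.1 = Q.1 := ext_inj 0 fun k hk => Fin.ext (Nat.add_right_cancel (k5 k hk))
  exact Prod.ext e5 (Prod.ext e1 (Prod.ext e2 (Prod.ext e3 e4)))

theorem x_coord (hl : l ≤ n) (u : ℝ) :
    ∑' k, ((xd (word P k) : ℝ) + u * xe (word P k)) * (1 / 4) ^ k =
      4 * ((dh P : ℝ) + u * (4 ^ (n - l) * eh P)) / 4 ^ n + 4 * wh P / 256 ^ n := by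
  rw [series_eq P (fun t => (xd t : ℝ) + u * xe t) (by simp [xd, xe])]
  have e1 : ∑ k ∈ Finset.range n, ((xd (Sum.inl (ext 0 P.2.1 k, ext 0 P.2.2.1 k, ext 0 P.1 k)) : ℝ)
      + u * xe (Sum.inl (ext 0 P.2.1 k, ext 0 P.2.2.1 k, ext 0 P.1 k))) * (1 / 4) ^ k =
      4 * (dh P : ℝ) / 4 ^ n + u * (4 * (4 ^ (n - l) * eh P) / 4 ^ n) := by
    have h1 := hv_cast (B := 4) (by norm_num) (fun k => (ext 0 P.2.1 k : Fin 4)) n
    have h2 := hv_cast (B := 4) (by norm_num) (fun k => (ext 0 P.2.2.1 k : Fin 4)) n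
    have h3 : hv 4 (fun k => (ext 0 P.2.2.1 k : Fin 4)) n = 4 ^ (n - l) * eh P := by
      exact hv_tail hl (fun k hk => by rw [ext_ge _ _ hk]; rfl)
    rw [h3] at h2
    push_cast at h1 h2
    unfold dh
    rw [← h1, ← h2, Finset.mul_sum, ← Finset.sum_add_distrib]
    refine Finset.sum_congr rfl fun k _ => ?_
    simp only [xd, xe, Sum.elim_inl]
    ring
  have e2 : ∑ k ∈ Finset.range n, ((xd (Sum.inr (ext 0 P.2.2.2.1 k)) : ℝ)
      + u * xe (Sum.inr (ext 0 P.2.2.2.1 k))) * (1 / 4) ^ (n + k) = 0 := by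
    refine Finset.sum_eq_zero fun k _ => ?_
    simp [xd, xe]
  have e3 : ∑ k ∈ Finset.range (n + n), ((xd (Sum.inl (ext 0 P.2.2.2.2 k, 0, 0)) : ℝ)
      + u * xe (Sum.inl (ext 0 P.2.2.2.2 k, 0, 0))) * (1 / 4) ^ (n + n + k) =
      4 * wh P / 256 ^ n := by
    have h1 := hv_cast (B := 4) (by norm_num) (fun k => (ext 0 P.2.2.2.2 k : Fin 4)) (n + n)
    push_cast at h1
    have h2 : ∑ k ∈ Finset.range (n + n), ((xd (Sum.inl (ext 0 P.2.2.2.2 k, 0, 0)) : ℝ)
      + u * xe (Sum.inl (ext 0 P.2.2.2.2 k, 0, 0))) * (1 / 4) ^ (n + n + k) =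
      (1 / 4) ^ (n + n) * ∑ k ∈ Finset.range (n + n), ((ext 0 P.2.2.2.2 k : Fin 4) : ℝ) *
        (1 / 4) ^ k := by
      rw [Finset.mul_sum]
      refine Finset.sum_congr rfl fun k _ => ?_
      simp only [xd, xe, Sum.elim_inl]
      rw [pow_add]
      simp
      ring
    rw [h2, h1]
    unfold wh
    rw [one_div, inv_pow, show (256 : ℝ) ^ n = 4 ^ (n + n) * 4 ^ (n + n) by
      rw [← pow_add, show n + n + (n + n) = 4 * n by ring, pow_mul]; norm_num]
    field_simp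
  rw [e1, e2, e3]
  ring

theorem z_coord : ∑' k, (zd (word P k) : ℝ) * (1 / 16) ^ k = 16 * zh P / 256 ^ n := by
  rw [series_eq P (fun t => (zd t : ℝ)) (by simp [zd])]
  have e1 : ∑ k ∈ Finset.range n, (zd (Sum.inl (ext 0 P.2.1 k, ext 0 P.2.2.1 k, ext 0 P.1 k)) : ℝ)
      * (1 / 16) ^ k = 0 := Finset.sum_eq_zero fun k _ => by simp [zd]
  have e3 : ∑ k ∈ Finset.range (n + n), (zd (Sum.inl (ext 0 P.2.2.2.2 k, 0, 0)) : ℝ)
      * (1 / 16) ^ (n + n + k) = 0 := Finset.sum_eq_zero fun k _ => by simp [zd]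
  have e2 : ∑ k ∈ Finset.range n, (zd (Sum.inr (ext 0 P.2.2.2.1 k)) : ℝ) * (1 / 16) ^ (n + k) =
      16 * zh P / 256 ^ n := by
    have h1 := hv_cast (B := 16) (by norm_num) (fun k => (ext 0 P.2.2.2.1 k : Fin 16)) n
    push_cast at h1
    have h2 : ∑ k ∈ Finset.range n, (zd (Sum.inr (ext 0 P.2.2.2.1 k)) : ℝ) * (1 / 16) ^ (n + k) =
      (1 / 16) ^ n * ∑ k ∈ Finset.range n, ((ext 0 P.2.2.2.1 k : Fin 16) : ℝ) * (1 / 16) ^ k := by
      rw [Finset.mul_sum]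
      refine Finset.sum_congr rfl fun k _ => ?_
      simp only [zd, Sum.elim_inr]
      rw [pow_add]
      ring
    rw [h2, h1]
    unfold zh
    rw [one_div, inv_pow, show (256 : ℝ) ^ n = 16 ^ n * 16 ^ n by rw [← mul_pow]; norm_num]
    field_simp
  rw [e1, e2, e3]
  ring

/-- The part of the third coordinate which is the same for all parameters. -/
noncomputable def ctail (n : ℕ) : ℝ := ∑ k ∈ Finset.range (n + n), (1 / 256 : ℝ) ^ (n + n + k)

theorem y_coord : ∑' k, (yd (word P k) : ℝ) * (1 / 256) ^ k = 256 * yh P / 256 ^ n + ctail n := by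
  rw [series_eq P (fun t => (yd t : ℝ)) (by simp [yd])]
  have e1 : ∑ k ∈ Finset.range n, (yd (Sum.inl (ext 0 P.2.1 k, ext 0 P.2.2.1 k, ext 0 P.1 k)) : ℝ)
      * (1 / 256) ^ k = 256 * yh P / 256 ^ n := by
    have h1 := hv_cast (B := 256) (by norm_num) (fun k => (ext 0 P.1 k : Fin 255) + 1) n
    push_cast at h1
    unfold yh
    rw [← h1]
    refine Finset.sum_congr rfl fun k _ => ?_
    simp [yd]
  have e3 : ∑ k ∈ Finset.range (n + n), (yd (Sum.inl (ext 0 P.2.2.2.2 k, 0, 0)) : ℝ)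
      * (1 / 256) ^ (n + n + k) = ctail n := Finset.sum_congr rfl fun k _ => by simp [yd]
  have e2 : ∑ k ∈ Finset.range n, (yd (Sum.inr (ext 0 P.2.2.2.1 k)) : ℝ) * (1 / 256) ^ (n + k) =
      0 := Finset.sum_eq_zero fun k _ => by simp [yd]
  rw [e1, e2, e3]
  ring

/-- Separation of the family. -/
theorem par_sep {P Q : Par n l} (hPQ : P ≠ Q) (d : ℕ) (hd : 3 ≤ d) (hl : l < n) (p : ℕ)
    {u r : ℝ} (hu : u = p / 4 ^ (n - l) + 1 / 4 ^ n + r) (hr0 : 0 ≤ r) (hr : r * 16 ^ n ≤ 1) :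
    (1 / 256 : ℝ) ^ n < dist (code (ratio d) (trans d u) (word P))
      (code (ratio d) (trans d u) (word Q)) := by
  have h256 : (0 : ℝ) < 256 ^ n := by positivity
  have hlt : (1 / 256 : ℝ) ^ n < 4 / 256 ^ n := by
    rw [one_div, inv_pow, ← one_div]
    gcongr
    norm_num
  have habs : ∀ a b : ℕ, a ≠ b → (1 : ℝ) ≤ |(a : ℝ) - b| := by
    intro a b hab
    have h1 : (a : ℤ) - b ≠ 0 := sub_ne_zero.2 (by exact_mod_cast hab)
    have h2 : (1 : ℤ) ≤ |(a : ℤ) - b| := Int.one_le_abs h1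
    exact_mod_cast h2
  refine hlt.trans_le ?_
  by_cases hy : yh P = yh Q
  swap
  · refine le_trans ?_ (coord_le_dist _ _ ⟨2, by omega⟩)
    rw [coord2 u _ rfl, coord2 u _ rfl, y_coord, y_coord]
    have h1 := habs _ _ hy
    rw [show 256 * (yh P : ℝ) / 256 ^ n + ctail n - (256 * (yh Q : ℝ) / 256 ^ n + ctail n) =
      256 / 256 ^ n * ((yh P : ℝ) - yh Q) by ring, abs_mul,
      abs_of_pos (by positivity : (0 : ℝ) < 256 / 256 ^ n)]
    calc (4 : ℝ) / 256 ^ n ≤ 256 / 256 ^ n * 1 := by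
          rw [mul_one]; gcongr; norm_num
      _ ≤ _ := by gcongr
  by_cases hz : zh P = zh Q
  swap
  · refine le_trans ?_ (coord_le_dist _ _ ⟨1, by omega⟩)
    rw [coord1 u _ rfl, coord1 u _ rfl, z_coord, z_coord]
    have h1 := habs _ _ hz
    rw [show 16 * (zh P : ℝ) / 256 ^ n - 16 * (zh Q : ℝ) / 256 ^ n =
      16 / 256 ^ n * ((zh P : ℝ) - zh Q) by ring, abs_mul,
      abs_of_pos (by positivity : (0 : ℝ) < 16 / 256 ^ n)]
    calc (4 : ℝ) / 256 ^ n ≤ 16 / 256 ^ n * 1 := by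
          rw [mul_one]; gcongr; norm_num
      _ ≤ _ := by gcongr
  -- first coordinate
  refine le_trans ?_ (coord_le_dist _ _ ⟨0, by omega⟩)
  rw [coord0 u _ rfl, coord0 u _ rfl, x_coord P hl.le, x_coord Q hl.le]
  have hel : ∀ R : Par n l, eh R < 4 ^ l := fun R => hv_lt (fun k _ => (ext 0 R.2.2.1 k : Fin 4).2)
  have hwl : ∀ R : Par n l, wh R < 4 ^ (n + n) :=
    fun R => hv_lt (fun k _ => (ext 0 R.2.2.2.2 k : Fin 4).2)
  have hnl : (4 : ℝ) ^ n = 4 ^ (n - l) * 4 ^ l := by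
    rw [← pow_add, Nat.sub_add_cancel hl.le]
  -- the integer `M`
  set M : Par n l → ℕ := fun R => 4 ^ l * (dh R + p * eh R) + eh R with hM
  have hform : ∀ R : Par n l, 4 * ((dh R : ℝ) + u * (4 ^ (n - l) * eh R)) / 4 ^ n +
      4 * wh R / 256 ^ n = 4 / 4 ^ n * ((M R : ℝ) / 4 ^ l + wh R / 64 ^ n +
        r * (4 ^ (n - l) * eh R)) := by
    intro R
    rw [hM, hu, show (256 : ℝ) ^ n = 4 ^ n * 64 ^ n by rw [← mul_pow]; norm_num]
    push_cast
    rw [hnl]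
    have h1 : (4 : ℝ) ^ (n - l) ≠ 0 := by positivity
    have h2 : (4 : ℝ) ^ l ≠ 0 := by positivity
    have h3 : (64 : ℝ) ^ n ≠ 0 := by positivity
    field_simp
    ring
  rw [hform, hform, ← mul_sub, abs_mul, abs_of_pos (by positivity : (0 : ℝ) < 4 / 4 ^ n)]
  have h256' : (4 : ℝ) / 256 ^ n = 4 / 4 ^ n * (1 / 64 ^ n) := by
    rw [show (256 : ℝ) ^ n = 4 ^ n * 64 ^ n by rw [← mul_pow]; norm_num]
    field_simp
  rw [h256']
  refine mul_le_mul_of_nonneg_left ?_ (by positivity)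
  by_cases hMM : M P = M Q
  · -- then only the late digits differ
    have he : eh P = eh Q := by
      have := congrArg (· % 4 ^ l) hMM
      simpa [hM, Nat.add_mod, Nat.mod_eq_of_lt (hel P), Nat.mod_eq_of_lt (hel Q)] using this
    have hdd : dh P = dh Q := by
      have h1 : 4 ^ l * (dh P + p * eh P) + eh P = 4 ^ l * (dh Q + p * eh Q) + eh Q := hMM
      rw [he] at h1
      have h2 := Nat.eq_of_mul_eq_mul_left (by positivity) (Nat.add_right_cancel h1)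
      omega
    have hw : wh P ≠ wh Q := fun hw => hPQ (par_ext hdd he hz hw hy)
    have h1 := habs _ _ hw
    rw [hMM, he, show (M Q : ℝ) / 4 ^ l + (wh P : ℝ) / 64 ^ n + r * (4 ^ (n - l) * eh Q) -
      ((M Q : ℝ) / 4 ^ l + (wh Q : ℝ) / 64 ^ n + r * (4 ^ (n - l) * eh Q)) =
      1 / 64 ^ n * ((wh P : ℝ) - wh Q) by ring, abs_mul,
      abs_of_pos (by positivity : (0 : ℝ) < 1 / 64 ^ n)]
    nlinarith [h1, (by positivity : (0 : ℝ) < 1 / 64 ^ n)]
  · have h1 := habs _ _ hMM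
    -- sizes
    have hl4 : (4 : ℝ) ^ n = 4 ^ l * 4 ^ (n - l) := by rw [hnl]; ring
    have hn4 : (4 : ℝ) ≤ 4 ^ (n - l) := by
      calc (4 : ℝ) = 4 ^ 1 := by norm_num
        _ ≤ 4 ^ (n - l) := pow_le_pow_right₀ (by norm_num) (by omega)
    have hw1 : ∀ R : Par n l, 0 ≤ (wh R : ℝ) / 64 ^ n ∧ (wh R : ℝ) / 64 ^ n ≤ 1 / 4 ^ n := by
      intro R
      have hR : (wh R : ℝ) ≤ 4 ^ (n + n) := by exact_mod_cast (hwl R).le
      refine ⟨by positivity, ?_⟩
      rw [div_le_div_iff₀ (by positivity) (by positivity)]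
      have : (4 : ℝ) ^ (n + n) * 4 ^ n = 64 ^ n := by
        rw [pow_add, ← mul_pow, ← mul_pow]; norm_num
      nlinarith [(by positivity : (0 : ℝ) < 4 ^ n)]
    have hr1 : ∀ R : Par n l, 0 ≤ r * (4 ^ (n - l) * (eh R : ℝ)) ∧
        r * (4 ^ (n - l) * (eh R : ℝ)) ≤ 1 / 4 ^ n := by
      intro R
      have hR : (eh R : ℝ) ≤ 4 ^ l := by exact_mod_cast (hel R).le
      refine ⟨by positivity, ?_⟩
      have h2 : (4 : ℝ) ^ (n - l) * eh R ≤ 4 ^ n := by
        rw [hnl]; exact mul_le_mul_of_nonneg_left hR (by positivity)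
      rw [le_div_iff₀ (by positivity)]
      calc r * (4 ^ (n - l) * eh R) * 4 ^ n ≤ r * 4 ^ n * 4 ^ n := by gcongr
        _ = r * 16 ^ n := by rw [mul_assoc, ← mul_pow]; norm_num
        _ ≤ 1 := hr
    have hbig : 4 / 4 ^ n ≤ |(M P : ℝ) / 4 ^ l - (M Q : ℝ) / 4 ^ l| := by
      rw [← sub_div, abs_div, abs_of_pos (by positivity : (0 : ℝ) < 4 ^ l), hl4,
        div_le_div_iff₀ (by positivity) (by positivity)]
      nlinarith [mul_le_mul hn4 h1 (by norm_num) (by positivity : (0 : ℝ) ≤ 4 ^ (n - l)),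
        (by positivity : (0 : ℝ) < 4 ^ l)]
    have h64 : (1 : ℝ) / 64 ^ n ≤ 1 / 4 ^ n := by
      gcongr; norm_num
    have hP := hw1 P
    have hQ := hw1 Q
    have hP' := hr1 P
    have hQ' := hr1 Q
    have h4n : 4 / (4 : ℝ) ^ n = 4 * (1 / 4 ^ n) := by ring
    rw [h4n] at hbig
    rcases le_abs'.1 hbig with h | h
    · refine le_trans ?_ (neg_le_abs _)
      linarith [hP.1, hP.2, hQ.1, hQ.2, hP'.1, hP'.2, hQ'.1, hQ'.2]
    · refine le_trans ?_ (le_abs_self _)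
      linarith [hP.1, hP.2, hQ.1, hQ.2, hP'.1, hP'.2, hQ'.1, hQ'.2]

/-- Lower bound for the covering number at scales where `u` has a nonzero digit. -/
theorem coverNum_thick (n l : ℕ) (d : ℕ) (hd : 3 ≤ d) (hl : l < n) (p : ℕ)
    {u r : ℝ} (hu : u = p / 4 ^ (n - l) + 1 / 4 ^ n + r) (hr0 : 0 ≤ r) (hr : r * 16 ^ n ≤ 1) :
    255 ^ n * (4 ^ n * (4 ^ l * (16 ^ n * 4 ^ (n + n)))) ≤ coverNum (attr d u) ((1 / 256) ^ n) := by
  have hc := (isSelfAffine_attr d u).2.1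
  have h := le_coverNum_of_separated hc (δ := (1 / 256) ^ n) (by positivity)
    (P := Par n l) (fun P => code (ratio d) (trans d u) (word P)) (fun P => ⟨_, rfl⟩)
    (fun P Q hPQ => par_sep hPQ d hd hl p hu hr0 hr)
  simpa [Fintype.card_prod] using h

end Pool.Agent.H75.Box
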