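import Pool.Agent.H75.Box.Thin
import Pool.Agent.H75.Box.Thick

/-!
# The Liouville translation: lower box dimension < upper box dimension
-/

open Filter Topology Set
open scoped Nat

namespace Pool.Agent.H75.Box

/-- the translation parameter -/
noncomputable def uu : ℝ := liouvilleNumber 4

theorem uu_eq (k : ℕ) : ∃ p : ℕ, ∃ r : ℝ, 0 ≤ r ∧ r ≤ (4 / 3) * (1 / 4 ^ (k + 1)!) ∧
    uu = p / 4 ^ k ! + r := by
  obtain ⟨p, hp⟩ := LiouvilleNumber.partialSum_eq_rat (m := 4) (by norm_num) k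
  refine ⟨p, LiouvilleNumber.remainder 4 k, ?_, ?_, ?_⟩
  · exact (LiouvilleNumber.remainder_pos (by norm_num) k).le
  · have := LiouvilleNumber.remainder_lt' k (m := 4) (by norm_num)
    refine this.le.trans (le_of_eq ?_)
    norm_num
  · have h := LiouvilleNumber.partialSum_add_remainder (m := 4) (by norm_num) k
    rw [uu, ← h]
    have hp' : LiouvilleNumber.partialSum 4 k = (p : ℝ) / 4 ^ k ! := by
      have := hp
      push_cast at this
      exact this
    rw [hp']

theorem uu_eq' (k : ℕ) : ∃ p : ℕ, ∃ r : ℝ, 0 ≤ r ∧ r ≤ (4 / 3) * (1 / 4 ^ (k + 2)!) ∧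
    uu = p / 4 ^ k ! + 1 / 4 ^ (k + 1)! + r := by
  obtain ⟨p, hp⟩ := LiouvilleNumber.partialSum_eq_rat (m := 4) (by norm_num) k
  refine ⟨p, LiouvilleNumber.remainder 4 (k + 1), ?_, ?_, ?_⟩
  · exact (LiouvilleNumber.remainder_pos (by norm_num) (k + 1)).le
  · have := LiouvilleNumber.remainder_lt' (k + 1) (m := 4) (by norm_num)
    refine this.le.trans (le_of_eq ?_)
    norm_num
  · have h := LiouvilleNumber.partialSum_add_remainder (m := 4) (by norm_num) (k + 1)
    rw [uu, ← h, LiouvilleNumber.partialSum_succ]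
    have hp' : LiouvilleNumber.partialSum 4 k = (p : ℝ) / 4 ^ k ! := by
      have := hp
      push_cast at this
      exact this
    rw [hp']

theorem uu_le_one : uu ≤ 1 := by
  have h := LiouvilleNumber.partialSum_add_remainder (m := 4) (by norm_num) 0
  have h2 := LiouvilleNumber.remainder_lt' 0 (m := 4) (by norm_num)
  rw [uu, ← h]
  have h3 : LiouvilleNumber.partialSum 4 0 = 1 / 4 := by
    simp [LiouvilleNumber.partialSum]
  rw [h3]
  norm_num at h2
  linarith

/-- number of digits used at the `i`-th thin scale -/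
def tn (i : ℕ) : ℕ := (i + 1) * (4 * i + 3)!

theorem tn_pos (i : ℕ) : 0 < tn i := Nat.mul_pos (Nat.succ_pos _) (Nat.factorial_pos _)

theorem le_tn (i : ℕ) : i ≤ tn i := by
  have := Nat.factorial_pos (4 * i + 3)
  unfold tn
  nlinarith

theorem four_tn (i : ℕ) : 4 * tn i = (4 * i + 3 + 1)! := by
  rw [Nat.factorial_succ, tn]; ring

theorem thin_scale (d i : ℕ) :
    coverNum (attr d uu) (d * (300 * (1 / 256) ^ tn i)) ≤
      271 ^ tn i * (32 ^ tn i * ((2 * 4 ^ (tn i + (4 * i + 3)!) + 1) * (8 * 16 ^ tn i + 1))) := by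
  obtain ⟨p, r, hr0, hr, hu⟩ := uu_eq (4 * i + 3)
  refine coverNum_thin d hu hr0 uu_le_one ?_
  rw [← four_tn] at hr
  have h1 : (1 : ℝ) / 4 ^ (4 * tn i) = (1 / 256) ^ tn i := by
    rw [pow_mul, one_div_pow]; norm_num
  rw [h1] at hr
  refine hr.trans ?_
  have : (0 : ℝ) ≤ (1 / 256) ^ tn i := by positivity
  nlinarith

theorem thick_scale (d i : ℕ) (hd : 3 ≤ d) :
    255 ^ (i + 2)! * (4 ^ (i + 2)! * (4 ^ ((i + 2)! - (i + 1)!) *
      (16 ^ (i + 2)! * 4 ^ ((i + 2)! + (i + 2)!)))) ≤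
      coverNum (attr d uu) ((1 / 256) ^ (i + 2)!) := by
  obtain ⟨p, r, hr0, hr, hu⟩ := uu_eq' (i + 1)
  have h1 : (i + 1)! ≤ (i + 2)! := Nat.factorial_le (by omega)
  have h2 := Nat.factorial_pos (i + 1)
  refine coverNum_thick (i + 2)! ((i + 2)! - (i + 1)!) d hd (by omega) p (u := uu) (r := r) ?_ hr0 ?_
  · rw [Nat.sub_sub_self h1]
    exact hu
  · have h3 : 3 * (i + 2)! ≤ (i + 3)! := by
      rw [Nat.factorial_succ (i + 2)]
      exact Nat.mul_le_mul_right _ (by omega)
    have h4 : (1 : ℝ) / 4 ^ (i + 3)! ≤ 1 / 4 ^ (3 * (i + 2)!) :=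
      one_div_le_one_div_of_le (by positivity) (pow_le_pow_right₀ (by norm_num) h3)
    have h5 : (1 : ℝ) / 4 ^ (3 * (i + 2)!) * 16 ^ (i + 2)! = 1 / 4 ^ (i + 2)! := by
      have : (16 : ℝ) ^ (i + 2)! = 4 ^ (2 * (i + 2)!) := by
        rw [pow_mul]; norm_num
      rw [this, div_mul_eq_mul_div, one_mul, div_eq_div_iff (by positivity) (by positivity),
        one_mul, ← pow_add]
      congr 1
      ring
    have h6 : (1 : ℝ) / 4 ^ (i + 2)! ≤ 1 / 4 := by
      apply one_div_le_one_div_of_le (by norm_num)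
      have := Nat.factorial_pos (i + 2)
      calc (4 : ℝ) = 4 ^ 1 := by norm_num
        _ ≤ 4 ^ (i + 2)! := pow_le_pow_right₀ (by norm_num) (by omega)
    have h7 : (0 : ℝ) < 16 ^ (i + 2)! := by positivity
    calc r * 16 ^ (i + 2)! ≤ (4 / 3 * (1 / 4 ^ (3 * (i + 2)!))) * 16 ^ (i + 2)! := by
          apply mul_le_mul_of_nonneg_right _ h7.le
          exact hr.trans (mul_le_mul_of_nonneg_left h4 (by norm_num))
      _ = 4 / 3 * (1 / 4 ^ (3 * (i + 2)!) * 16 ^ (i + 2)!) := by ring
      _ ≤ 1 := by rw [h5]; linarith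

theorem log_thin (d i : ℕ) (hd : 3 ≤ d) :
    Real.log (coverNum (attr d uu) (d * (300 * (1 / 256) ^ tn i))) ≤
      tn i * Real.log 555008 + (4 * i + 3)! * Real.log 4 + Real.log 27 := by
  have hpos : 0 < coverNum (attr d uu) (d * (300 * (1 / 256) ^ tn i)) := by
    have hc := (isSelfAffine_attr d uu).2.1
    obtain ⟨x, hx⟩ := (isSelfAffine_attr d uu).1
    have hd0 : (0 : ℝ) < d := by exact_mod_cast (by omega : 0 < d)
    have := le_coverNum_of_separated hc (δ := d * (300 * (1 / 256) ^ tn i)) (by positivity)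
      (P := Unit) (fun _ => x) (fun _ => hx) (fun i j h => absurd (Subsingleton.elim i j) h)
    rw [Fintype.card_unit] at this
    exact this
  have h1 : ((coverNum (attr d uu) (d * (300 * (1 / 256) ^ tn i)) : ℕ) : ℝ) ≤
      555008 ^ tn i * (4 ^ (4 * i + 3)! * 27) := by
    have h2 := thin_scale d i
    have h3 : 271 ^ tn i * (32 ^ tn i * ((2 * 4 ^ (tn i + (4 * i + 3)!) + 1) *
        (8 * 16 ^ tn i + 1))) ≤ 555008 ^ tn i * (4 ^ (4 * i + 3)! * 27) := by
      have h4 : 1 ≤ 4 ^ (tn i + (4 * i + 3)!) := Nat.one_le_pow _ _ (by norm_num)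
      have h5 : 1 ≤ 16 ^ tn i := Nat.one_le_pow _ _ (by norm_num)
      calc 271 ^ tn i * (32 ^ tn i * ((2 * 4 ^ (tn i + (4 * i + 3)!) + 1) * (8 * 16 ^ tn i + 1)))
          ≤ 271 ^ tn i * (32 ^ tn i * ((3 * 4 ^ (tn i + (4 * i + 3)!)) * (9 * 16 ^ tn i))) := by
            gcongr <;> omega
        _ = (271 ^ tn i * 32 ^ tn i * 4 ^ tn i * 16 ^ tn i) * (4 ^ (4 * i + 3)! * 27) := by
            rw [pow_add]; ring
        _ = 555008 ^ tn i * (4 ^ (4 * i + 3)! * 27) := by
            rw [← mul_pow, ← mul_pow, ← mul_pow]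
            norm_num
    exact_mod_cast h2.trans h3
  have h6 := Real.log_le_log (by exact_mod_cast hpos) h1
  refine h6.trans (le_of_eq ?_)
  rw [Real.log_mul (by positivity) (by positivity), Real.log_mul (by positivity) (by positivity),
    Real.log_pow, Real.log_pow]
  ring

theorem log_thick (d i : ℕ) (hd : 3 ≤ d) :
    (i + 2)! * Real.log 1044480 - (i + 1)! * Real.log 4 ≤
      Real.log (coverNum (attr d uu) ((1 / 256) ^ (i + 2)!)) := by
  have h1 : (i + 1)! ≤ (i + 2)! := Nat.factorial_le (by omega)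
  have h2 : (1044480 : ℝ) ^ (i + 2)! ≤
      (coverNum (attr d uu) ((1 / 256) ^ (i + 2)!) : ℕ) * 4 ^ (i + 1)! := by
    have h3 := Nat.mul_le_mul_right (4 ^ (i + 1)!) (thick_scale d i hd)
    have h4 : 255 ^ (i + 2)! * (4 ^ (i + 2)! * (4 ^ ((i + 2)! - (i + 1)!) *
      (16 ^ (i + 2)! * 4 ^ ((i + 2)! + (i + 2)!)))) * 4 ^ (i + 1)! = 1044480 ^ (i + 2)! := by
      calc 255 ^ (i + 2)! * (4 ^ (i + 2)! * (4 ^ ((i + 2)! - (i + 1)!) *
            (16 ^ (i + 2)! * 4 ^ ((i + 2)! + (i + 2)!)))) * 4 ^ (i + 1)!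
          = 255 ^ (i + 2)! * (4 ^ (i + 2)! * ((4 ^ ((i + 2)! - (i + 1)!) * 4 ^ (i + 1)!) *
            (16 ^ (i + 2)! * 4 ^ ((i + 2)! + (i + 2)!)))) := by ring
        _ = 255 ^ (i + 2)! * (4 ^ (i + 2)! * (4 ^ (i + 2)! *
            (16 ^ (i + 2)! * (4 ^ (i + 2)! * 4 ^ (i + 2)!)))) := by
            rw [← pow_add 4 ((i + 2)! - (i + 1)!), Nat.sub_add_cancel h1, pow_add]
        _ = 1044480 ^ (i + 2)! := by
            simp only [← mul_pow]
            norm_num
    rw [h4] at h3
    exact_mod_cast h3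
  have h5 : (0 : ℝ) < (coverNum (attr d uu) ((1 / 256) ^ (i + 2)!) : ℕ) := by
    have : (0 : ℝ) < (coverNum (attr d uu) ((1 / 256) ^ (i + 2)!) : ℕ) * 4 ^ (i + 1)! :=
      lt_of_lt_of_le (by positivity) h2
    exact pos_of_mul_pos_left this (by positivity)
  have h6 := Real.log_le_log (by positivity) h2
  rw [Real.log_mul h5.ne' (by positivity), Real.log_pow, Real.log_pow] at h6
  linarith

theorem tendsto_fact_ratio : Tendsto (fun i : ℕ => ((4 * i + 3)! : ℝ) / tn i) atTop (𝓝 0) := by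
  have : (fun i : ℕ => ((4 * i + 3)! : ℝ) / tn i) = fun i : ℕ => 1 / ((i : ℝ) + 1) := by
    funext i
    have h : ((4 * i + 3)! : ℝ) ≠ 0 := by exact_mod_cast (Nat.factorial_pos _).ne'
    have h' : (i : ℝ) + 1 ≠ 0 := by positivity
    rw [tn]
    push_cast
    field_simp
  rw [this]
  exact tendsto_one_div_add_atTop_nhds_zero_nat

theorem tendsto_inv_tn (c : ℝ) : Tendsto (fun i : ℕ => c / tn i) atTop (𝓝 0) := by
  have h : Tendsto tn atTop atTop := tendsto_atTop_mono le_tn tendsto_id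
  exact (tendsto_const_div_atTop_nhds_zero_nat c).comp h

theorem lower_le (d : ℕ) (hd : 3 ≤ d) :
    lowerBoxDim (attr d uu) ≤ ((Real.log 555008 / Real.log 256 : ℝ) : EReal) := by
  have hd0 : (0 : ℝ) < d := by exact_mod_cast (by omega : 0 < d)
  have hb : 0 < Real.log 256 := Real.log_pos (by norm_num)
  have htn : ∀ i, (0 : ℝ) < tn i := fun i => by exact_mod_cast tn_pos i
  have hlogd : ∀ i, -Real.log ((d : ℝ) * (300 * (1 / 256) ^ tn i)) =
      tn i * Real.log 256 - Real.log (d * 300) := by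
    intro i
    rw [← mul_assoc, Real.log_mul (by positivity) (by positivity), Real.log_pow, one_div,
      Real.log_inv]
    ring
  refine lowerBoxDim_le (δ := fun i => (d : ℝ) * (300 * (1 / 256) ^ tn i)) ?_ ?_
    (g := fun i => (Real.log 555008 + ((4 * i + 3)! : ℝ) / tn i * Real.log 4 +
      Real.log 27 / tn i) / (Real.log 256 - Real.log (d * 300) / tn i)) ?_ ?_
  · intro i
    positivity
  · have h1 : Tendsto (fun i => ((1 : ℝ) / 256) ^ tn i) atTop (𝓝 0) :=
      (tendsto_pow_atTop_nhds_zero_of_lt_one (by norm_num) (by norm_num)).comp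
        (tendsto_atTop_mono le_tn tendsto_id)
    have := (h1.const_mul (300 : ℝ)).const_mul (d : ℝ)
    simpa using this
  · have h1 := (tendsto_fact_ratio.mul_const (Real.log 4)).const_add (Real.log 555008)
    have h2 := h1.add (tendsto_inv_tn (Real.log 27))
    have h3 := (tendsto_inv_tn (Real.log (d * 300))).const_sub (Real.log 256)
    have h4 := h2.div h3 (by simpa using hb.ne')
    have h5 : (Real.log 555008 + 0 * Real.log 4 + 0) / (Real.log 256 - 0) =
        Real.log 555008 / Real.log 256 := by ring_nf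
    rw [h5] at h4
    exact h4
  · have h3 := (tendsto_inv_tn (Real.log (d * 300))).const_sub (Real.log 256)
    have h4 : ∀ᶠ i in atTop, 0 < Real.log 256 - Real.log (d * 300) / tn i :=
      h3.eventually (lt_mem_nhds (by simpa using hb))
    filter_upwards [h4] with i hi
    rw [hlogd, div_le_div_iff₀ _ hi]
    · have h5 := log_thin d i hd
      have h6 : (tn i : ℝ) * Real.log 256 - Real.log (d * 300) =
          tn i * (Real.log 256 - Real.log (d * 300) / tn i) := by
        have := (htn i).ne'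
        field_simp
      have h7 : (Real.log 555008 + ((4 * i + 3)! : ℝ) / tn i * Real.log 4 +
          Real.log 27 / tn i) * tn i =
          tn i * Real.log 555008 + (4 * i + 3)! * Real.log 4 + Real.log 27 := by
        have := (htn i).ne'
        field_simp
      rw [h6, ← mul_assoc (Real.log 555008 + ((4 * i + 3)! : ℝ) / tn i * Real.log 4 +
          Real.log 27 / tn i), h7]
      exact mul_le_mul_of_nonneg_right h5 hi.le
    · have h6 : (tn i : ℝ) * Real.log 256 - Real.log (d * 300) =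
          tn i * (Real.log 256 - Real.log (d * 300) / tn i) := by
        have := (htn i).ne'
        field_simp
      rw [h6]
      exact mul_pos (htn i) hi

theorem tendsto_fact_ratio' :
    Tendsto (fun i : ℕ => ((i + 1)! : ℝ) / (i + 2)!) atTop (𝓝 0) := by
  have : (fun i : ℕ => ((i + 1)! : ℝ) / (i + 2)!) = fun i : ℕ => 1 / (((i + 1 : ℕ) : ℝ) + 1) := by
    funext i
    have h : ((i + 1)! : ℝ) ≠ 0 := by exact_mod_cast (Nat.factorial_pos _).ne'
    have h' : ((i : ℝ) + 1 + 1) ≠ 0 := by positivity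
    rw [Nat.factorial_succ (i + 1)]
    push_cast
    field_simp
  rw [this]
  exact (tendsto_add_atTop_iff_nat (f := fun n : ℕ => 1 / ((n : ℝ) + 1)) 1).2
    tendsto_one_div_add_atTop_nhds_zero_nat

theorem le_upper (d : ℕ) (hd : 3 ≤ d) :
    ((Real.log 1044480 / Real.log 256 : ℝ) : EReal) ≤ upperBoxDim (attr d uu) := by
  have hb : 0 < Real.log 256 := Real.log_pos (by norm_num)
  have hf : ∀ i : ℕ, (0 : ℝ) < (i + 2)! := fun i => by exact_mod_cast Nat.factorial_pos _
  have hle : ∀ i : ℕ, i ≤ (i + 2)! := fun i =>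
    (by omega : i ≤ i + 2).trans (Nat.self_le_factorial _)
  refine le_upperBoxDim (δ := fun i => ((1 : ℝ) / 256) ^ (i + 2)!) ?_ ?_
    (g := fun i => (Real.log 1044480 - ((i + 1)! : ℝ) / (i + 2)! * Real.log 4) /
      Real.log 256) ?_ ?_
  · intro i
    positivity
  · exact (tendsto_pow_atTop_nhds_zero_of_lt_one (by norm_num) (by norm_num)).comp
        (tendsto_atTop_mono hle tendsto_id)
  · have h1 := ((tendsto_fact_ratio'.mul_const (Real.log 4)).const_sub
      (Real.log 1044480)).div_const (Real.log 256)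
    simpa using h1
  · refine Eventually.of_forall fun i => ?_
    have h1 : -Real.log (((1 : ℝ) / 256) ^ (i + 2)!) = (i + 2)! * Real.log 256 := by
      rw [Real.log_pow, one_div, Real.log_inv]; ring
    rw [h1, div_le_div_iff₀ hb (mul_pos (hf i) hb)]
    have h2 := log_thick d i hd
    have h3 : (Real.log 1044480 - ((i + 1)! : ℝ) / (i + 2)! * Real.log 4) *
        ((i + 2)! * Real.log 256) =
        ((i + 2)! * Real.log 1044480 - (i + 1)! * Real.log 4) * Real.log 256 := by
      have := (hf i).ne'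
      field_simp
    rw [h3]
    exact mul_le_mul_of_nonneg_right h2 hb.le

theorem lower_lt_upper (d : ℕ) (hd : 3 ≤ d) :
    lowerBoxDim (attr d uu) < upperBoxDim (attr d uu) := by
  refine (lower_le d hd).trans_lt (lt_of_lt_of_le ?_ (le_upper d hd))
  have hb : 0 < Real.log 256 := Real.log_pos (by norm_num)
  rw [EReal.coe_lt_coe_iff]
  exact div_lt_div_of_pos_right (Real.log_lt_log (by norm_num) (by norm_num)) hb

end Pool.Agent.H75.Box
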