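import Pool.Agent.H75.Box.Attr

/-!
# The system and its two counting estimates
-/

open Filter Topology Set

namespace Pool.Agent.H75.Box

/-- Index type of the maps. -/
abbrev Dig : Type := (Fin 4 × Fin 4 × Fin 255) ⊕ Fin 16

/-- first part of the first coordinate of the translation -/
def xd : Dig → ℕ := Sum.elim (fun t => t.1) (fun _ => 0)
/-- second part (multiplied by `u`) of the first coordinate of the translation -/
def xe : Dig → ℕ := Sum.elim (fun t => t.2.1) (fun _ => 0)
/-- second coordinate of the translation -/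
def zd : Dig → ℕ := Sum.elim (fun _ => 0) (fun z => z)
/-- third coordinate of the translation -/
def yd : Dig → ℕ := Sum.elim (fun t => t.2.2 + 1) (fun _ => 0)

theorem xd_le (t : Dig) : xd t ≤ 3 := by
  rcases t with ⟨a, b, c⟩ | z
  · have := a.2; simp only [xd, Sum.elim_inl]; omega
  · simp [xd]

theorem xe_le (t : Dig) : xe t ≤ 3 := by
  rcases t with ⟨a, b, c⟩ | z
  · have := b.2; simp only [xe, Sum.elim_inl]; omega
  · simp [xe]

theorem zd_le (t : Dig) : zd t ≤ 15 := by
  rcases t with ⟨a, b, c⟩ | z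
  · simp [zd]
  · have := z.2; simp only [zd, Sum.elim_inr]; omega

theorem yd_le (t : Dig) : yd t ≤ 255 := by
  rcases t with ⟨a, b, c⟩ | z
  · have := c.2; simp only [yd, Sum.elim_inl]; omega
  · simp [yd]

/-- contraction ratios: `1/4, 1/16, 1/256` and `1/4` for all further coordinates -/
noncomputable def ratio (d : ℕ) (i : Fin d) : ℝ :=
  if i.val = 1 then 1 / 16 else if i.val = 2 then 1 / 256 else 1 / 4

/-- translations -/
noncomputable def trans (d : ℕ) (u : ℝ) (t : Dig) (i : Fin d) : ℝ :=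
  if i.val = 0 then xd t + u * xe t else if i.val = 1 then zd t else if i.val = 2 then yd t else 0

/-- the self-affine set -/
noncomputable def attr (d : ℕ) (u : ℝ) : Set (EuclideanSpace ℝ (Fin d)) :=
  range (code (ratio d) (trans d u))

theorem isSelfAffine_attr (d : ℕ) (u : ℝ) : IsSelfAffine d (attr d u) := by
  apply isSelfAffine_code (a := 1 / 4)
  · simp [Dig]
  · norm_num
  · intro i; unfold ratio; split_ifs <;> norm_num
  · intro i; unfold ratio; split_ifs <;> norm_num
  · norm_num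

theorem coord0 {d : ℕ} (u : ℝ) (ω : ℕ → Dig) {i : Fin d} (hi : i.val = 0) :
    code (ratio d) (trans d u) ω i = ∑' k, ((xd (ω k) : ℝ) + u * xe (ω k)) * (1 / 4) ^ k := by
  simp [code_apply, ratio, trans, hi]

theorem coord1 {d : ℕ} (u : ℝ) (ω : ℕ → Dig) {i : Fin d} (hi : i.val = 1) :
    code (ratio d) (trans d u) ω i = ∑' k, (zd (ω k) : ℝ) * (1 / 16) ^ k := by
  simp [code_apply, ratio, trans, hi]

theorem coord2 {d : ℕ} (u : ℝ) (ω : ℕ → Dig) {i : Fin d} (hi : i.val = 2) :
    code (ratio d) (trans d u) ω i = ∑' k, (yd (ω k) : ℝ) * (1 / 256) ^ k := by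
  simp [code_apply, ratio, trans, hi]

theorem coord3 {d : ℕ} (u : ℝ) (ω : ℕ → Dig) {i : Fin d} (h0 : i.val ≠ 0) (h1 : i.val ≠ 1)
    (h2 : i.val ≠ 2) : code (ratio d) (trans d u) ω i = 0 := by
  simp [code_apply, ratio, trans, h0, h1, h2]

section series

/-- splitting off the first `N` terms -/
theorem split_tail {q M : ℝ} (hq0 : 0 ≤ q) (hq1 : q < 1) {a : ℕ → ℝ} (ha0 : ∀ k, 0 ≤ a k)
    (ha : ∀ k, a k ≤ M) (N : ℕ) :
    ∑' k, a k * q ^ k = ∑ k ∈ Finset.range N, a k * q ^ k + ∑' k, a (k + N) * q ^ (k + N) ∧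
    0 ≤ ∑' k, a (k + N) * q ^ (k + N) ∧
    ∑' k, a (k + N) * q ^ (k + N) ≤ M * q ^ N / (1 - q) := by
  have hs : Summable (fun k => a k * q ^ k) :=
    summable_digits hq0 hq1 (M := M) (fun k => by rw [abs_of_nonneg (ha0 k)]; exact ha k)
  refine ⟨(hs.sum_add_tsum_nat_add N).symm, tsum_nonneg fun k => ?_, ?_⟩
  · exact mul_nonneg (ha0 _) (pow_nonneg hq0 _)
  · have h1 : Summable (fun k => a (k + N) * q ^ (k + N)) := (summable_nat_add_iff N).2 hs
    have h2 : Summable (fun k : ℕ => M * q ^ N * q ^ k) :=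
      (summable_geometric_of_lt_one hq0 hq1).mul_left _
    refine (Summable.tsum_le_tsum (fun k => ?_) h1 h2).trans ?_
    · rw [pow_add]
      have h3 := mul_le_mul_of_nonneg_right (ha (k + N))
        (mul_nonneg (pow_nonneg hq0 k) (pow_nonneg hq0 N))
      nlinarith [h3]
    · rw [tsum_mul_left, tsum_geometric_of_lt_one hq0 hq1]
      rw [div_eq_mul_inv]

/-- difference of two series with equal first `N` terms -/
theorem abs_sub_le_of_head {q M : ℝ} (hq0 : 0 ≤ q) (hq1 : q < 1) {a b : ℕ → ℝ}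
    (ha0 : ∀ k, 0 ≤ a k) (ha : ∀ k, a k ≤ M) (hb0 : ∀ k, 0 ≤ b k) (hb : ∀ k, b k ≤ M) {N : ℕ}
    (h : ∀ k < N, a k = b k) :
    |∑' k, a k * q ^ k - ∑' k, b k * q ^ k| ≤ M * q ^ N / (1 - q) := by
  obtain ⟨h1, h2, h3⟩ := split_tail hq0 hq1 ha0 ha N
  obtain ⟨g1, g2, g3⟩ := split_tail hq0 hq1 hb0 hb N
  have : ∑ k ∈ Finset.range N, a k * q ^ k = ∑ k ∈ Finset.range N, b k * q ^ k :=
    Finset.sum_congr rfl fun k hk => by rw [h k (Finset.mem_range.1 hk)]
  rw [h1, g1, this, abs_le]
  constructor <;> linarith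

end series

section horner

/-- Horner value of a digit sequence -/
def hv (B : ℕ) (a : ℕ → ℕ) : ℕ → ℕ
  | 0 => 0
  | n + 1 => B * hv B a n + a n

theorem hv_lt {B : ℕ} {a : ℕ → ℕ} {n : ℕ} (h : ∀ k < n, a k < B) : hv B a n < B ^ n := by
  induction n with
  | zero => simp [hv]
  | succ n ih =>
    have h1 := ih (fun k hk => h k (by omega))
    have h2 := h n (by omega)
    rw [hv, pow_succ]
    calc B * hv B a n + a n < B * hv B a n + B := by omega
      _ = B * (hv B a n + 1) := by ring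
      _ ≤ B * B ^ n := Nat.mul_le_mul_left _ h1
      _ = B ^ n * B := by ring

theorem hv_inj {B : ℕ} {a b : ℕ → ℕ} {n : ℕ} (ha : ∀ k < n, a k < B) (hb : ∀ k < n, b k < B)
    (h : hv B a n = hv B b n) : ∀ k < n, a k = b k := by
  induction n with
  | zero => intro k hk; omega
  | succ n ih =>
    rw [hv, hv] at h
    have h1 := ha n (by omega)
    have h2 := hb n (by omega)
    have h3 : a n = b n := by
      have := congrArg (· % B) h
      simpa [Nat.add_mod, Nat.mod_eq_of_lt h1, Nat.mod_eq_of_lt h2] using this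
    have h4 : hv B a n = hv B b n := by
      rw [h3] at h
      exact Nat.eq_of_mul_eq_mul_left (by omega) (Nat.add_right_cancel h)
    intro k hk
    rcases Nat.lt_succ_iff_lt_or_eq.1 hk with hk | rfl
    · exact ih (fun k hk => ha k (by omega)) (fun k hk => hb k (by omega)) h4 k hk
    · exact h3

theorem hv_cast {B : ℕ} (hB : 0 < B) (a : ℕ → ℕ) (n : ℕ) :
    ∑ k ∈ Finset.range n, (a k : ℝ) * (1 / (B : ℝ)) ^ k = B * hv B a n / (B : ℝ) ^ n := by
  have hB' : (B : ℝ) ≠ 0 := by positivity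
  induction n with
  | zero => simp [hv]
  | succ n ih =>
    rw [Finset.sum_range_succ, ih, hv]
    push_cast
    rw [one_div, inv_pow, pow_succ]
    field_simp

theorem hv_zero_tail {B : ℕ} {a : ℕ → ℕ} {n m : ℕ} (h : ∀ k, n ≤ k → a k = 0) :
    hv B a (n + m) = B ^ m * hv B a n := by
  induction m with
  | zero => simp
  | succ m ih =>
    rw [← add_assoc, hv, ih, h _ (by omega)]
    ring

end horner

end Pool.Agent.H75.Box
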