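import Pool.Agent.H75.Box.System

/-!
# Upper bound for the covering numbers at thin scales
-/

open Filter Topology Set

namespace Pool.Agent.H75.Box

/-- label remembering the last two coordinates of the translation -/
def hl : Dig → Fin 255 ⊕ Fin 16 := Sum.map (fun t => t.2.2) id
/-- label remembering the first two coordinates of the translation -/
def ml : Dig → (Fin 4 × Fin 4) ⊕ Fin 16 := Sum.map (fun t => (t.1, t.2.1)) id

theorem yd_hl {s t : Dig} (h : hl s = hl t) : yd s = yd t := by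
  rcases s with ⟨a, b, c⟩ | z <;> rcases t with ⟨a', b', c'⟩ | z' <;>
    simp_all [hl, yd]

theorem zd_hl {s t : Dig} (h : hl s = hl t) : zd s = zd t := by
  rcases s with ⟨a, b, c⟩ | z <;> rcases t with ⟨a', b', c'⟩ | z' <;>
    simp_all [hl, zd]

theorem zd_ml {s t : Dig} (h : ml s = ml t) : zd s = zd t := by
  rcases s with ⟨a, b, c⟩ | z <;> rcases t with ⟨a', b', c'⟩ | z' <;>
    simp_all [ml, zd]

theorem xd_ml {s t : Dig} (h : ml s = ml t) : xd s = xd t := by
  rcases s with ⟨a, b, c⟩ | z <;> rcases t with ⟨a', b', c'⟩ | z' <;>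
    simp_all [ml, xd]

theorem xe_ml {s t : Dig} (h : ml s = ml t) : xe s = xe t := by
  rcases s with ⟨a, b, c⟩ | z <;> rcases t with ⟨a', b', c'⟩ | z' <;>
    simp_all [ml, xe]

theorem hv_le {A : ℕ} {a : ℕ → ℕ} (h : ∀ k, a k ≤ 3 * A) (n : ℕ) :
    hv 4 a n + A ≤ A * 4 ^ n := by
  induction n with
  | zero => simp [hv]
  | succ n ih =>
    have h1 := h n
    rw [hv, pow_succ]
    nlinarith

section thin

variable (n m p : ℕ) (u : ℝ)

/-- the lattice label of the head -/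
def qlab (ω : ℕ → Dig) : ℕ := hv 4 (fun k => 4 ^ m * xd (ω k) + p * xe (ω k)) n

/-- the late part of the first coordinate -/
noncomputable def late (ω : ℕ → Dig) : ℝ :=
  ∑' k, ((xd (ω (k + (n + n))) : ℝ) + u * xe (ω (k + (n + n)))) * (1 / 4) ^ (k + (n + n))

variable {n m p u}

theorem qlab_lt (hp : p ≤ 4 ^ m) (ω : ℕ → Dig) : qlab n m p ω < 2 * 4 ^ (n + m) + 1 := by
  have h := hv_le (A := 2 * 4 ^ m) (a := fun k => 4 ^ m * xd (ω k) + p * xe (ω k)) (fun k => by
    have h1 := xd_le (ω k)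
    have h2 := xe_le (ω k)
    calc 4 ^ m * xd (ω k) + p * xe (ω k) ≤ 4 ^ m * 3 + 4 ^ m * 3 :=
          Nat.add_le_add (Nat.mul_le_mul_left _ h1) (Nat.mul_le_mul hp h2)
      _ = 3 * (2 * 4 ^ m) := by ring) n
  have h2 : 2 * 4 ^ m * 4 ^ n = 2 * 4 ^ (n + m) := by rw [pow_add]; ring
  rw [h2] at h
  unfold qlab
  omega

theorem head_eq (r : ℝ) (hu : u = p / 4 ^ m + r) (ω : ℕ → Dig) :
    ∑ k ∈ Finset.range n, ((xd (ω k) : ℝ) + u * xe (ω k)) * (1 / 4) ^ k =
      1 / 4 ^ m * (4 * qlab n m p ω / 4 ^ n) +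
        r * ∑ k ∈ Finset.range n, (xe (ω k) : ℝ) * (1 / 4) ^ k := by
  have h := hv_cast (B := 4) (by norm_num) (fun k => 4 ^ m * xd (ω k) + p * xe (ω k)) n
  push_cast at h
  unfold qlab
  rw [← h, Finset.mul_sum, Finset.mul_sum, ← Finset.sum_add_distrib]
  refine Finset.sum_congr rfl fun k _ => ?_
  rw [hu]
  have : (4 : ℝ) ^ m ≠ 0 := by positivity
  field_simp
  ring

theorem esum_bound (ω : ℕ → Dig) :
    0 ≤ ∑ k ∈ Finset.range n, (xe (ω k) : ℝ) * (1 / 4) ^ k ∧
    ∑ k ∈ Finset.range n, (xe (ω k) : ℝ) * (1 / 4) ^ k ≤ 4 := by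
  refine ⟨Finset.sum_nonneg fun k _ => by positivity, ?_⟩
  have h1 : ∑ k ∈ Finset.range n, (xe (ω k) : ℝ) * (1 / 4) ^ k ≤
      ∑ k ∈ Finset.range n, 3 * (1 / 4 : ℝ) ^ k := by
    refine Finset.sum_le_sum fun k _ => ?_
    refine mul_le_mul_of_nonneg_right ?_ (by positivity)
    exact_mod_cast xe_le (ω k)
  refine h1.trans ?_
  rw [← Finset.mul_sum, geom_sum_eq (by norm_num)]
  have : (0 : ℝ) ≤ (1 / 4) ^ n := by positivity
  have e : 3 * (((1 / 4 : ℝ) ^ n - 1) / (1 / 4 - 1)) = 4 - 4 * (1 / 4) ^ n := by ring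
  linarith

theorem x_bounds (hu0 : 0 ≤ u) (hu1 : u ≤ 1) (t : Dig) :
    0 ≤ (xd t : ℝ) + u * xe t ∧ (xd t : ℝ) + u * xe t ≤ 6 := by
  have h1 : (xd t : ℝ) ≤ 3 := by exact_mod_cast xd_le t
  have h2 : (xe t : ℝ) ≤ 3 := by exact_mod_cast xe_le t
  have h3 : (0 : ℝ) ≤ xe t := by positivity
  have h4 : (0 : ℝ) ≤ xd t := by positivity
  constructor
  · positivity
  · nlinarith

theorem late_bounds (hu0 : 0 ≤ u) (hu1 : u ≤ 1) (ω : ℕ → Dig) :
    0 ≤ late n u ω ∧ late n u ω ≤ 8 * (1 / 16) ^ n := by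
  obtain ⟨-, h2, h3⟩ := split_tail (q := 1 / 4) (M := 6) (by norm_num) (by norm_num)
    (a := fun k => (xd (ω k) : ℝ) + u * xe (ω k)) (fun k => (x_bounds hu0 hu1 _).1)
    (fun k => (x_bounds hu0 hu1 _).2) (n + n)
  refine ⟨h2, h3.trans_eq ?_⟩
  rw [pow_add, ← mul_pow]
  norm_num
  ring

theorem late_floor_lt (hu0 : 0 ≤ u) (hu1 : u ≤ 1) (ω : ℕ → Dig) :
    ⌊256 ^ n * late n u ω⌋₊ < 8 * 16 ^ n + 1 := by
  have h := (late_bounds (n := n) hu0 hu1 ω).2
  rw [Nat.lt_add_one_iff]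
  apply Nat.floor_le_of_le
  push_cast
  calc (256 : ℝ) ^ n * late n u ω ≤ 256 ^ n * (8 * (1 / 16) ^ n) := by gcongr
    _ = 8 * 16 ^ n := by
        rw [mul_left_comm, ← mul_pow]; norm_num

theorem x_split (hu0 : 0 ≤ u) (hu1 : u ≤ 1) (ω : ℕ → Dig) :
    ∑' k, ((xd (ω k) : ℝ) + u * xe (ω k)) * (1 / 4) ^ k =
      (∑ k ∈ Finset.range n, ((xd (ω k) : ℝ) + u * xe (ω k)) * (1 / 4) ^ k +
       ∑ k ∈ Finset.range n, ((xd (ω (n + k)) : ℝ) + u * xe (ω (n + k))) * (1 / 4) ^ (n + k)) +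
       late n u ω := by
  obtain ⟨h1, -, -⟩ := split_tail (q := 1 / 4) (M := 6) (by norm_num) (by norm_num)
    (a := fun k => (xd (ω k) : ℝ) + u * xe (ω k)) (fun k => (x_bounds hu0 hu1 _).1)
    (fun k => (x_bounds hu0 hu1 _).2) (n + n)
  rw [h1, Finset.sum_range_add]
  rfl

/-- Upper bound for the covering number at scales where `u` is extremely well approximated. -/
theorem coverNum_thin (d : ℕ) {r : ℝ} (hu : u = p / 4 ^ m + r) (hr0 : 0 ≤ r) (hu1 : u ≤ 1)
    (hr : r ≤ 10 * (1 / 256) ^ n) :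
    coverNum (attr d u) (d * (300 * (1 / 256) ^ n)) ≤
      271 ^ n * (32 ^ n * ((2 * 4 ^ (n + m) + 1) * (8 * 16 ^ n + 1))) := by
  have hu0 : 0 ≤ u := by rw [hu]; positivity
  have hp : p ≤ 4 ^ m := by
    have h1 : (p : ℝ) / 4 ^ m ≤ 1 := by linarith
    rw [div_le_one (by positivity)] at h1
    exact_mod_cast h1
  have key := coverNum_le_of_label (code (ratio d) (trans d u))
    (L := (Fin n → Fin 255 ⊕ Fin 16) × (Fin n → (Fin 4 × Fin 4) ⊕ Fin 16) ×
      Fin (2 * 4 ^ (n + m) + 1) × Fin (8 * 16 ^ n + 1))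
    (fun ω => (fun k => hl (ω k), fun k => ml (ω (n + k)), ⟨qlab n m p ω, qlab_lt hp ω⟩,
      ⟨⌊256 ^ n * late n u ω⌋₊, late_floor_lt hu0 hu1 ω⟩))
    (δ := d * (300 * (1 / 256) ^ n)) ?_
  · refine key.trans_eq ?_
    simp [Fintype.card_prod]
  · intro ω ω' h
    simp only [Prod.mk.injEq, Fin.mk.injEq] at h
    obtain ⟨h1, h2, h3, h4⟩ := h
    have h1' : ∀ k < n, hl (ω k) = hl (ω' k) := fun k hk => congrFun h1 ⟨k, hk⟩
    have h2' : ∀ k < n, ml (ω (n + k)) = ml (ω' (n + k)) := fun k hk => congrFun h2 ⟨k, hk⟩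
    have hpos : (0 : ℝ) < (1 / 256) ^ n := by positivity
    apply dist_le_of_coord (by positivity)
    intro i
    by_cases hi0 : i.val = 0
    · -- first coordinate
      rw [coord0 u ω hi0, coord0 u ω' hi0]
      rw [x_split hu0 hu1 ω, x_split hu0 hu1 ω', head_eq r hu ω, head_eq r hu ω', h3]
      have hm : ∑ k ∈ Finset.range n, ((xd (ω (n + k)) : ℝ) + u * xe (ω (n + k))) *
          (1 / 4) ^ (n + k) = ∑ k ∈ Finset.range n, ((xd (ω' (n + k)) : ℝ) +
          u * xe (ω' (n + k))) * (1 / 4) ^ (n + k) := by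
        refine Finset.sum_congr rfl fun k hk => ?_
        rw [xd_ml (h2' k (Finset.mem_range.1 hk)), xe_ml (h2' k (Finset.mem_range.1 hk))]
      rw [hm]
      have e1 := esum_bound (n := n) ω
      have e2 := esum_bound (n := n) ω'
      have l1 := late_bounds (n := n) hu0 hu1 ω
      have l2 := late_bounds (n := n) hu0 hu1 ω'
      have hl : |late n u ω - late n u ω'| ≤ (1 / 256) ^ n := by
        have f1 := Nat.floor_le (mul_nonneg (by positivity : (0 : ℝ) ≤ 256 ^ n) l1.1)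
        have f2 := Nat.floor_le (mul_nonneg (by positivity : (0 : ℝ) ≤ 256 ^ n) l2.1)
        have g1 := Nat.lt_floor_add_one (256 ^ n * late n u ω)
        have g2 := Nat.lt_floor_add_one (256 ^ n * late n u ω')
        rw [h4] at f1 g1
        have h5 : |256 ^ n * (late n u ω - late n u ω')| ≤ 1 := by
          rw [abs_le]; constructor <;> nlinarith
        rw [abs_mul, abs_of_pos (by positivity : (0 : ℝ) < 256 ^ n)] at h5
        rw [one_div, inv_pow, ← one_div, le_div_iff₀ (by positivity)]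
        linarith
      have hE : |r * ∑ k ∈ Finset.range n, (xe (ω k) : ℝ) * (1 / 4) ^ k -
          r * ∑ k ∈ Finset.range n, (xe (ω' k) : ℝ) * (1 / 4) ^ k| ≤ 40 * (1 / 256) ^ n := by
        rw [← mul_sub, abs_mul, abs_of_nonneg hr0]
        have : |∑ k ∈ Finset.range n, (xe (ω k) : ℝ) * (1 / 4) ^ k -
            ∑ k ∈ Finset.range n, (xe (ω' k) : ℝ) * (1 / 4) ^ k| ≤ 4 := by
          rw [abs_le]; constructor <;> linarith [e1.1, e1.2, e2.1, e2.2]
        calc r * _ ≤ (10 * (1 / 256) ^ n) * 4 := mul_le_mul hr this (abs_nonneg _) (by positivity)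
          _ = 40 * (1 / 256) ^ n := by ring
      rw [abs_le] at hl hE ⊢
      constructor <;> linarith [hl.1, hl.2, hE.1, hE.2]
    by_cases hi1 : i.val = 1
    · -- second coordinate
      rw [coord1 u ω hi1, coord1 u ω' hi1]
      refine (abs_sub_le_of_head (M := 15) (N := n + n) (by norm_num) (by norm_num)
        (fun k => by positivity) (fun k => by exact_mod_cast zd_le _) (fun k => by positivity)
        (fun k => by exact_mod_cast zd_le _) ?_).trans ?_
      · intro k hk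
        rcases Nat.lt_or_ge k n with hk' | hk'
        · rw [zd_hl (h1' k hk')]
        · obtain ⟨j, rfl⟩ := Nat.exists_eq_add_of_le hk'
          rw [zd_ml (h2' j (by omega))]
      · rw [pow_add, ← mul_pow]
        norm_num
        norm_num at hpos
        linarith
    by_cases hi2 : i.val = 2
    · -- third coordinate
      rw [coord2 u ω hi2, coord2 u ω' hi2]
      refine (abs_sub_le_of_head (M := 255) (N := n) (by norm_num) (by norm_num)
        (fun k => by positivity) (fun k => by exact_mod_cast yd_le _) (fun k => by positivity)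
        (fun k => by exact_mod_cast yd_le _) ?_).trans ?_
      · intro k hk
        rw [yd_hl (h1' k hk)]
      · norm_num
        norm_num at hpos
        linarith
    · rw [coord3 u ω hi0 hi1 hi2, coord3 u ω' hi0 hi1 hi2, sub_self, abs_zero]
      positivity

end thin

end Pool.Agent.H75.Box
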